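import Pool.Agent.Q104.KT.Hom

set_option autoImplicit false

/-!
# The incidence group of the complete bipartite graph with 3 + 6 vertices is not a Kazhdan group

Identifying the rows in pairs gives a group which acts on the lattice of dimension four by affine
signed permutations, with infinite orbits.
-/

namespace Pool.Agent.Results.MP_2cd205_al.NotKazhdan

open Pool.Agent.Q104.KT

/-- The incidence group of the complete bipartite graph with 3 + 6 vertices does not have Kazhdan's
property (T). -/
theorem result : ¬ KazhdanT K36 := not_T

end Pool.Agent.Results.MP_2cd205_al.NotKazhdan
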